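import Pool.Agent.N554.HKS.Def

/-!
Project HK (helper554), leaf S2 (helper674): the squares of `w` which contain the letter `m`.
-/

set_option autoImplicit false

namespace Pool.Agent.N674.HKS

open Pool.Agent.N554.HKS

theorem T_five : ∀ y : Fin 6, ∀ j < 22, (T y j = 5 ↔ j = 9) := by decide +kernel

theorem T_inj1 : ∀ y y' : Fin 6, T y 20 = T y' 20 → T y 21 = T y' 21 → y = y' := by
  decide +kernel

theorem T_inj2 : ∀ y y' : Fin 6, T y 19 = T y' 19 → T y 20 = T y' 20 → y = y' := by
  decide +kernel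

theorem w_five (h : WST) (n : ℕ) : w n = 5 ↔ n % 22 = 9 := by
  have h1 : w n = T (w (n / 22)) (n % 22) := by
    have h2 := h.1 (n / 22) (n % 22) (Nat.mod_lt _ (by norm_num))
    rw [Nat.div_add_mod] at h2
    exact h2
  rw [h1]
  exact T_five _ _ (Nat.mod_lt _ (by norm_num))

theorem step (i n : ℕ) (hn : 0 < n) (h : w i = w (i + n)) :
    (seg w (i + 1) n).Perm (seg w i n) := by
  obtain ⟨m, rfl⟩ : ∃ m, n = m + 1 := ⟨n - 1, by omega⟩
  have e1 : seg w i (m + 1) = w i :: seg w (i + 1) m := by
    unfold seg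
    rw [List.range_succ_eq_map, List.map_cons, List.map_map]
    congr 1
    apply List.map_congr_left
    intro j _
    simp only [Function.comp_apply]
    congr 1
    omega
  have e2 : seg w (i + 1) (m + 1) = seg w (i + 1) m ++ [w (i + 1 + m)] := by
    unfold seg
    rw [List.range_succ, List.map_append, List.map_singleton]
  have e3 : w (i + 1 + m) = w i := by
    rw [h]
    congr 1
    omega
  rw [e1, e2, e3]
  exact List.perm_append_singleton _ _

theorem shift (i n : ℕ) (h : Sq i n) : ∀ t, t ≤ n → (seg w (i + t) n).Perm (seg w i n) := by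
  intro t
  induction t with
  | zero => exact fun _ => List.Perm.refl _
  | succ t ih =>
    intro ht
    exact (step (i + t) n h.1 (h.2 t ht)).trans (ih (by omega))

theorem par_perm {s s' : List (Fin 6)} (h : s.Perm s') : par s = par s' := by
  funext y
  unfold par
  rw [h.count_eq]

theorem S2_of (h : WST) : S2 := by
  intro i n hS hm
  obtain ⟨hn, hS'⟩ := hS
  obtain ⟨j, hj, hj5⟩ := hm
  have h1 := (w_five h _).1 hj5
  have h2 := (w_five h _).1 ((hS' j hj).symm.trans hj5)
  obtain ⟨n', hn'⟩ : ∃ n', n = 22 * n' := ⟨n / 22, by omega⟩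
  obtain ⟨k0, o, ho, hi⟩ : ∃ k0 o, o < 22 ∧ i = 22 * k0 + o :=
    ⟨i / 22, i % 22, Nat.mod_lt _ (by norm_num), (Nat.div_add_mod i 22).symm⟩
  have hn0 : 0 < n' := by omega
  have hw : ∀ k j, j < 22 → i ≤ 22 * k + j → 22 * k + j < i + n →
      T (w k) j = T (w (k + n')) j := by
    intro k j hj h3 h4
    have h5 := hS' (22 * k + j - i) (by omega)
    have h6 : i + (22 * k + j - i) = 22 * k + j := by omega
    rw [h6] at h5
    have h7 : 22 * k + j + n = 22 * (k + n') + j := by omega
    rw [h7, h.1 k j hj, h.1 (k + n') j hj] at h5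
    exact h5
  have hpar : par (seg w i n) = par (ext theta (seg w (k0 + 1) n')) := by
    rw [← h.2, ← hn']
    have h3 : 22 * (k0 + 1) = i + (22 - o) := by omega
    rw [h3]
    exact (par_perm (shift i n ⟨hn, hS'⟩ (22 - o) (by omega))).symm
  by_cases ho1 : o ≤ 20
  · have hk : Sq k0 n' := by
      refine ⟨hn0, fun c hc => ?_⟩
      exact T_inj1 _ _ (hw (k0 + c) 20 (by norm_num) (by omega) (by omega))
        (hw (k0 + c) 21 (by norm_num) (by omega) (by omega))
    refine ⟨n', k0, hn', hk, hpar.trans (par_perm ?_)⟩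
    unfold ext
    exact (shift k0 n' hk 1 hn0).flatMap_right theta
  · refine ⟨n', k0 + 1, hn', ⟨hn0, fun c hc => ?_⟩, hpar⟩
    exact T_inj2 _ _ (hw (k0 + 1 + c) 19 (by norm_num) (by omega) (by omega))
      (hw (k0 + 1 + c) 20 (by norm_num) (by omega) (by omega))

end Pool.Agent.N674.HKS
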